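import Pool.Agent.R650.Quandle

/-!
# MP_a41668_al: a connected smooth quandle that does not embed in any group

The three-sphere of unit quaternions with the operation `x ▷ y = y i y⁻¹ x i⁻¹` is a smooth
quandle, which is topologically and algebraically connected.  No injective map `f` of it to a
group `G` (Lie group or not) is a quandle homomorphism to `Conj(G)`: every such homomorphism
satisfies `f(-1) = f(1)`.  So the answer to Q1 is negative.

The definitions of quandles, of `Inn(X)` and of algebraic connectedness are in
`Pool/Agent/R650/QuandleDefs.lean`.  The three-sphere carries Mathlib's smooth structure.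
-/

set_option autoImplicit false

namespace Pool.Agent.Results.MP_a41668_al.SphereQuandle

open Pool.Agent.R650.Quandle
open Quaternion Metric
open scoped Manifold ContDiff

universe v

/-- There is a smooth quandle structure on the three-sphere (of unit quaternions) that is
topologically and algebraically connected, and that has no injective quandle homomorphism to the
conjugation quandle `x ▷ y = y⁻¹ x y` of a group. -/
theorem result :
    ∃ (op : sphere (0 : ℍ[ℝ]) 1 → sphere (0 : ℍ[ℝ]) 1 → sphere (0 : ℍ[ℝ]) 1)
      (h : IsQuandle op),
      ContMDiff ((𝓡 3).prod (𝓡 3)) (𝓡 3) ∞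
        (fun p : sphere (0 : ℍ[ℝ]) 1 × sphere (0 : ℍ[ℝ]) 1 => op p.1 p.2) ∧
      ConnectedSpace (sphere (0 : ℍ[ℝ]) 1) ∧
      h.AlgConnected ∧
      ∀ (G : Type v) [Group G] (f : sphere (0 : ℍ[ℝ]) 1 → G),
        (∀ x y, f (op x y) = (f y)⁻¹ * f x * f y) → ¬ Function.Injective f :=
  ⟨op3, isQuandle_op3, contMDiff_op3, connectedSpace_S3, algConnected_op3,
    fun _ _ f hf => not_injective f hf⟩

end Pool.Agent.Results.MP_a41668_al.SphereQuandle
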